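import Pool.Agent.H741.RS.Stm

/-!
# Project RS (MP_9c6456_an), step SLICE: a vector with minimal stabiliser (helper260 for helper741)
-/

set_option autoImplicit false
open scoped ComplexConjugate

namespace Pool.Agent.H260.RS

open Pool.Agent.H741.RS

section
variable {n : ℕ} {E : Type} [NormedAddCommGroup E] [InnerProductSpace ℝ E]

/-- the vectors fixed by the elements of `T` -/
def fixS (R : Rep n E) (T : Set (V n ≃ₗᵢ[ℂ] V n)) : Submodule ℝ E where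
  carrier := {w | ∀ U ∈ T, R.ρ U w = w}
  add_mem' := by
    intro a b ha hb U hU
    rw [map_add, ha U hU, hb U hU]
  zero_mem' := by
    intro U _
    exact map_zero _
  smul_mem' := by
    intro c a ha U hU
    rw [map_smul, ha U hU]

theorem mem_fixS {R : Rep n E} {T : Set (V n ≃ₗᵢ[ℂ] V n)} {w : E} :
    w ∈ fixS R T ↔ ∀ U ∈ T, R.ρ U w = w := Iff.rfl

/-- the group and the stabiliser of `x` in the centraliser of `h` -/
def TT (R : Rep n E) (G : Subgroup (V n ≃ₗᵢ[ℂ] V n)) (h : V n →L[ℂ] V n) (x : E) :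
    Set (V n ≃ₗᵢ[ℂ] V n) :=
  {U | U ∈ G ∨ (Cm h U ∧ R.ρ U x = x)}

theorem conj_eq {Y : V n →L[ℂ] V n} {g : V n ≃ₗᵢ[ℂ] V n} (hc : ∀ z, Y (g z) = g (Y z)) :
    (g : V n →L[ℂ] V n) ∘L Y ∘L ((g⁻¹ : V n ≃ₗᵢ[ℂ] V n) : V n →L[ℂ] V n) = Y := by
  refine ContinuousLinearMap.ext fun z => ?_
  change g (Y (g⁻¹ z)) = Y z
  rw [← hc]
  congr 1
  exact g.apply_symm_apply z

theorem rho_inv {R : Rep n E} {S : V n ≃ₗᵢ[ℂ] V n} {x : E} (h : R.ρ S x = x) :
    R.ρ S⁻¹ x = x := by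
  have h1 : R.ρ (S⁻¹ * S) x = R.ρ S⁻¹ (R.ρ S x) := by
    rw [map_mul]
    rfl
  rw [inv_mul_cancel, h, map_one] at h1
  exact h1.symm

theorem rho_mul {R : Rep n E} {U S : V n ≃ₗᵢ[ℂ] V n} {x : E} :
    R.ρ (U * S) x = R.ρ U (R.ρ S x) := by
  rw [map_mul]
  rfl

theorem cm_mul_inv {h : V n →L[ℂ] V n} {U S : V n ≃ₗᵢ[ℂ] V n} (hU : Cm h U) (hS : Cm h S) :
    Cm h (U * S⁻¹) := by
  intro z
  change h (U (S⁻¹ z)) = U (S⁻¹ (h z))
  rw [hU (S⁻¹ z)]
  congr 1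
  have h1 := hS (S⁻¹ z)
  have h2 : S (S⁻¹ z) = z := S.apply_symm_apply z
  rw [h2] at h1
  rw [h1]
  exact (S.symm_apply_apply _).symm

end

theorem t_SLICE (h1 : S_DIST) (h2 : S_EQUI) (h3 : S_QUAD) : S_SLICE := by
  intro n G iG h hG E i1 i2 i3 R
  obtain ⟨x, hx, hmax⟩ : ∃ x : E, (∀ g ∈ G, R.ρ g x = x) ∧ ∀ y : E, (∀ g ∈ G, R.ρ g y = y) →
      Module.finrank ℝ (fixS R (TT R G h y)) ≤ Module.finrank ℝ (fixS R (TT R G h x)) := by
    let A : Set ℕ := {k | ∃ x : E, (∀ g ∈ G, R.ρ g x = x) ∧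
      Module.finrank ℝ (fixS R (TT R G h x)) = k}
    have hne : A.Nonempty := ⟨_, 0, fun g _ => map_zero _, rfl⟩
    have hbd : BddAbove A := by
      refine ⟨Module.finrank ℝ E, ?_⟩
      rintro _ ⟨x, _, rfl⟩
      exact Submodule.finrank_le _
    obtain ⟨x, hx, he⟩ := Nat.sSup_mem hne hbd
    exact ⟨x, hx, fun y hy => he ▸ le_csSup hbd ⟨y, hy, rfl⟩⟩
  refine ⟨x, hx, ?_⟩
  by_contra hcon
  push Not at hcon
  obtain ⟨U0, hU0, hU0x, w0, hw0, hne⟩ := hcon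
  obtain ⟨y, hy, w, hw, hyw⟩ := (fixS R (TT R G h x)).exists_add_mem_mem_orthogonal w0
  have hwe : w = w0 - y := by rw [hyw]; abel
  have hwG : ∀ g ∈ G, R.ρ g w = w := by
    intro g hg
    rw [hwe, map_sub, hw0 g hg, hy g (Or.inl hg)]
  have hwF : w ∉ fixS R (TT R G h x) := by
    intro hwF
    have h4 : w = 0 := by
      have h5 := (Submodule.mem_orthogonal _ _).1 hw w hwF
      exact inner_self_eq_zero.1 h5
    rw [h4, add_zero] at hyw
    exact hne (by rw [hyw]; exact hy U0 (Or.inr ⟨hU0, hU0x⟩))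
  have hD : ∀ Y : V n →L[ℂ] V n, (∀ z w, hp (Y z) w = - hp z (Y w)) →
      (∀ g ∈ G, ∀ z, Y (g z) = g (Y z)) → Y ∘L h = h ∘L Y → inner ℝ (R.D Y x) w = 0 := by
    intro Y hY hYG hYh
    refine (Submodule.mem_orthogonal _ _).1 hw _ ?_
    rintro U (hU | ⟨hU, hUx⟩)
    · have h4 := h2 n E i1 i2 i3 R Y U x hY
      rw [conj_eq (hYG U hU), hx U hU] at h4
      exact h4.symm
    · have h4 := h2 n E i1 i2 i3 R Y U x hY
      have h5 : (U : V n →L[ℂ] V n) ∘L h = h ∘L (U : V n →L[ℂ] V n) :=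
        ContinuousLinearMap.ext fun z => (hU z).symm
      have h6 := hG.mx Y hYG hYh (U : V n →L[ℂ] V n) h5
      have h7 : ∀ z, Y (U z) = U (Y z) := fun z => (DFunLike.congr_fun h6 z).symm
      rw [conj_eq h7, hUx] at h4
      exact h4.symm
  obtain ⟨K, hK, hK1⟩ := h1 n E i1 i2 i3 R h x hG.sa
  obtain ⟨K', hK', hK2⟩ := h3 n G iG h hG E i1 i2 i3 R x w (fun g hg => ⟨hx g hg, hwG g hg⟩) hD
  set t : ℝ := 1 / (2 * K' * K ^ 2 + 2) with ht
  have hden : 0 < 2 * K' * K ^ 2 + 2 := by positivity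
  have ht0 : 0 < t := by positivity
  have ht1 : 2 * K' * K ^ 2 * t < 1 := by
    rw [ht, mul_one_div, div_lt_one hden]
    linarith
  have key : ∀ U : V n ≃ₗᵢ[ℂ] V n, Cm h U → R.ρ U (x + t • w) = x + t • w →
      R.ρ U x = x ∧ R.ρ U w = w := by
    intro U hU hfix
    rw [map_add, map_smul] at hfix
    have e1 : R.ρ U x - x = -(t • (R.ρ U w - w)) := by
      have h4 : R.ρ U x = x + t • w - t • R.ρ U w := by rw [← hfix]; abel
      rw [h4, smul_sub]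
      abel
    have e2 : inner ℝ (R.ρ U w - w) w = -(1 / 2 * ‖R.ρ U w - w‖ ^ 2) := by
      have h4 := norm_sub_sq_real (R.ρ U w) w
      rw [LinearIsometryEquiv.norm_map] at h4
      rw [inner_sub_left, real_inner_self_eq_norm_sq, h4]
      ring
    have e3 : |inner ℝ (R.ρ U x - x) w| = t / 2 * ‖R.ρ U w - w‖ ^ 2 := by
      rw [e1, inner_neg_left, inner_smul_left, e2]
      simp only [conj_trivial]
      rw [show -(t * -(1 / 2 * ‖R.ρ U w - w‖ ^ 2)) = t / 2 * ‖R.ρ U w - w‖ ^ 2 by ring]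
      exact abs_of_nonneg (by positivity)
    have e4 : ‖R.ρ U x - x‖ = t * ‖R.ρ U w - w‖ := by
      rw [e1, norm_neg, norm_smul, Real.norm_of_nonneg ht0.le]
    obtain ⟨S, hS, hSx, hSn⟩ := hK1 U hU
    have e5 : R.ρ (U * S⁻¹) x = R.ρ U x := by rw [rho_mul, rho_inv hSx]
    have e6 := hK2 (U * S⁻¹) (cm_mul_inv hU hS)
    rw [e5, e3] at e6
    have e7 : ‖((U * S⁻¹ : V n ≃ₗᵢ[ℂ] V n) : V n →L[ℂ] V n) - ContinuousLinearMap.id ℂ (V n)‖ ^ 2
        ≤ (K * ‖R.ρ U x - x‖) ^ 2 := pow_le_pow_left₀ (norm_nonneg _) hSn 2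
    have e8 := e6.trans (mul_le_mul_of_nonneg_left e7 hK')
    rw [e4] at e8
    have e9 : ‖R.ρ U w - w‖ = 0 := by
      by_contra hne'
      have hpos : 0 < ‖R.ρ U w - w‖ ^ 2 :=
        pow_pos (lt_of_le_of_ne (norm_nonneg _) (Ne.symm hne')) 2
      have h5 : 0 < t / 2 * (1 - 2 * K' * K ^ 2 * t) * ‖R.ρ U w - w‖ ^ 2 :=
        mul_pos (mul_pos (by positivity) (by linarith)) hpos
      nlinarith
    have e10 : R.ρ U w = w := sub_eq_zero.1 (norm_eq_zero.1 e9)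
    refine ⟨?_, e10⟩
    rw [e9, mul_zero, norm_eq_zero] at e4
    exact sub_eq_zero.1 e4
  have hx' : ∀ g ∈ G, R.ρ g (x + t • w) = x + t • w := by
    intro g hg
    rw [map_add, map_smul, hx g hg, hwG g hg]
  have hlt : fixS R (TT R G h x) < fixS R (TT R G h (x + t • w)) := by
    refine lt_of_le_of_ne ?_ ?_
    · intro v hv U hU
      rcases hU with hU | ⟨hU, hUx⟩
      · exact hv U (Or.inl hU)
      · exact hv U (Or.inr ⟨hU, (key U hU hUx).1⟩)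
    · intro heq
      refine hwF ?_
      rw [heq]
      intro U hU
      rcases hU with hU | ⟨hU, hUx⟩
      · exact hwG U hU
      · exact (key U hU hUx).2
  exact absurd (Submodule.finrank_lt_finrank_of_lt hlt) (not_lt.2 (hmax _ hx'))

end Pool.Agent.H260.RS
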